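import Pool.Agent.Helper37.KD.DefsC

/-! KD Part I, piece A2 -/

namespace KD.I.A2

open Finset

/-- triangle inequality in `l2` of a finite type -/
theorem l2_add_le {ι : Type*} (t : Finset ι) (a b : ι → ℝ) :
    √(∑ i ∈ t, (a i + b i) ^ 2) ≤ √(∑ i ∈ t, a i ^ 2) + √(∑ i ∈ t, b i ^ 2) := by
  have hA : 0 ≤ ∑ i ∈ t, a i ^ 2 := sum_nonneg (fun i _ => sq_nonneg _)
  have hB : 0 ≤ ∑ i ∈ t, b i ^ 2 := sum_nonneg (fun i _ => sq_nonneg _)
  refine Real.sqrt_le_iff.2 ⟨by positivity, ?_⟩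
  have h1 : ∑ i ∈ t, a i * b i ≤ √(∑ i ∈ t, a i ^ 2) * √(∑ i ∈ t, b i ^ 2) := by
    rw [← Real.sqrt_mul hA]
    exact Real.le_sqrt_of_sq_le (sum_mul_sq_le_sq_mul_sq t a b)
  have h2 : ∑ i ∈ t, (a i + b i) ^ 2 = ∑ i ∈ t, a i ^ 2 + 2 * ∑ i ∈ t, a i * b i + ∑ i ∈ t, b i ^ 2 := by
    rw [mul_sum, ← sum_add_distrib, ← sum_add_distrib]
    exact sum_congr rfl (fun i _ => by ring)
  have h3 := Real.sq_sqrt hA
  have h4 := Real.sq_sqrt hB
  rw [h2]
  nlinarith

variable {G : Type*} [Fintype G] [AddCommGroup G]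

theorem he_add_le (u : G → ℝ) (w w' : G) : √(he u (w + w')) ≤ √(he u w) + √(he u w') := by
  have h1 : he u (w + w') =
      ∑ z, ((√(u (z + w' + w)) - √(u (z + w'))) + (√(u (z + w')) - √(u z))) ^ 2 := by
    unfold he
    refine sum_congr rfl (fun z _ => ?_)
    rw [show z + (w + w') = z + w' + w by abel]
    ring
  have h2 : he u w = ∑ z, (√(u (z + w' + w)) - √(u (z + w'))) ^ 2 := by
    unfold he
    exact (sum_shift (fun z => (√(u (z + w)) - √(u z)) ^ 2) w').symm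
  rw [h1, h2]
  exact l2_add_le _ _ _

theorem he_zero (u : G → ℝ) : he u 0 = 0 := by
  unfold he; simp

theorem he_nsmul_le (u : G → ℝ) (w : G) (p : ℕ) : √(he u (p • w)) ≤ p * √(he u w) := by
  induction p with
  | zero => simp [he_zero]
  | succ p ih =>
      rw [succ_nsmul]
      have := he_add_le u (p • w) w
      push_cast
      linarith

theorem key {g b B : ℝ} (hg : 0 ≤ g) (hb : 0 ≤ b) (hB : 0 ≤ B) :
    √((g + √b) ^ 2 + B) ≤ g + √(b + B) := by
  refine Real.sqrt_le_iff.2 ⟨by positivity, ?_⟩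
  have h1 := Real.sq_sqrt hb
  have h2 := Real.sq_sqrt (add_nonneg hb hB)
  have h3 : √b ≤ √(b + B) := Real.sqrt_le_sqrt (by linarith)
  nlinarith [mul_le_mul_of_nonneg_left h3 hg]

/-- sequences: Hellinger drift iteration -/
theorem drift_iter (D G B : ℕ → ℝ) (τ : ℕ) (hD : ∀ m, 0 ≤ D m) (hG : ∀ m, 0 ≤ G m) (hB : ∀ m, 0 ≤ B m)
    (h0 : D 0 = 0) (h : ∀ m < τ, D (m + 1) ≤ √(D m ^ 2 + B m) + G m) :
    D τ ≤ ∑ m ∈ range τ, G m + √(∑ m ∈ range τ, B m) := by
  have H : ∀ n ≤ τ, D n ≤ ∑ m ∈ range n, G m + √(∑ m ∈ range n, B m) := by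
    intro n
    induction n with
    | zero => intro _; simp [h0]
    | succ n ih =>
        intro hn
        have h1 := ih (by omega)
        have h2 := h n (by omega)
        have h3 : 0 ≤ ∑ m ∈ range n, G m := sum_nonneg (fun m _ => hG m)
        have h4 : 0 ≤ ∑ m ∈ range n, B m := sum_nonneg (fun m _ => hB m)
        have h5 := key h3 h4 (hB n)
        have h6 : √(D n ^ 2 + B n) ≤ √((∑ m ∈ range n, G m + √(∑ m ∈ range n, B m)) ^ 2 + B n) := by
          apply Real.sqrt_le_sqrt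
          have := pow_le_pow_left₀ (hD n) h1 2
          linarith
        rw [sum_range_succ, sum_range_succ]
        linarith
  exact H τ le_rfl

end KD.I.A2
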