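import Pool.Agent.Helper37.KD.DefsC
import Pool.Agent.Helper37.KD.St.C4
import Pool.Agent.Helper37.KD.St.D1
import Pool.Agent.Helper37.KD.St.D2
import Pool.Agent.Helper37.KD.St.G1
import Pool.Agent.Helper51.KD1.A2

/-! KD Part I, piece G2 -/

namespace KD.I.G2

open Finset

section
variable {G : Type*} [Fintype G] [AddCommGroup G]

theorem he_nonneg (u : G → ℝ) (w : G) : 0 ≤ he u w := sum_nonneg (fun _ _ => sq_nonneg _)

theorem he_sum_le {ι : Type*} (u : G → ℝ) (t : Finset ι) (w : ι → G) :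
    √(he u (∑ i ∈ t, w i)) ≤ ∑ i ∈ t, √(he u (w i)) := by
  classical
  induction t using Finset.induction_on with
  | empty => simp [A2.he_zero]
  | insert a t ha ih =>
      rw [sum_insert ha, sum_insert ha]
      have := A2.he_add_le u (w a) (∑ i ∈ t, w i)
      linarith

end

section
variable {d N : ℕ}

theorem xs_add (a b : V d N) : xs (a + b) = xs a + xs b := by
  unfold xs; simp

theorem xs_nsmul (n : ℕ) (a : V d N) : xs (n • a) = n • xs a := by
  unfold xs; simp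

theorem xs_sum {ι : Type*} (t : Finset ι) (a : ι → V d N) :
    xs (∑ i ∈ t, a i) = ∑ i ∈ t, xs (a i) := by
  classical
  induction t using Finset.induction_on with
  | empty => unfold xs; simp
  | insert i t hi ih => rw [sum_insert hi, sum_insert hi, xs_add, ih]

/-- decomposition of `2x` -/
theorem decomp [NeZero N] (x : V d N) (t : ℕ) :
    x + x = ∑ i, ((2 * t) • (((x i).valMinAbs / (t : ℤ)) • (ee i : V d N)) +
      ((x i).valMinAbs % (t : ℤ)).toNat • ((ee i : V d N) + ee i)) ∨ t = 0 := by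
  rcases Nat.eq_zero_or_pos t with ht | ht
  · exact Or.inr ht
  left
  funext j
  have ht' : (0 : ℤ) < t := by exact_mod_cast ht
  have h1 : ∀ i, (((x i).valMinAbs % (t : ℤ)).toNat : ℤ) = (x i).valMinAbs % (t : ℤ) :=
    fun i => Int.toNat_of_nonneg (Int.emod_nonneg _ ht'.ne')
  have h2 : (x j + x j : ZMod N) =
      ((2 * t : ℕ) : ZMod N) * (((x j).valMinAbs / (t : ℤ) : ℤ) : ZMod N) +
      ((((x j).valMinAbs % (t : ℤ)).toNat : ℕ) : ZMod N) * (1 + 1) := by
    have h0 : ((((x j).valMinAbs % (t : ℤ)).toNat : ℕ) : ZMod N) =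
        (((x j).valMinAbs % (t : ℤ) : ℤ) : ZMod N) := by
      rw [← h1 j, Int.cast_natCast, h1 j]
    rw [h0]
    have h3 : (x j : ZMod N) = (((x j).valMinAbs : ℤ) : ZMod N) := (ZMod.coe_valMinAbs _).symm
    have h4 := Int.emod_add_mul_ediv (x j).valMinAbs (t : ℤ)
    have h5 : (x j : ZMod N) = (((x j).valMinAbs % (t : ℤ) : ℤ) : ZMod N) +
        (t : ZMod N) * (((x j).valMinAbs / (t : ℤ) : ℤ) : ZMod N) := by
      conv_lhs => rw [h3, ← h4]
      push_cast
      ring
    rw [show (x j + x j : ZMod N) = 2 * x j by ring]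
    conv_lhs => rw [h5]
    push_cast
    ring
  rw [Finset.sum_apply, Pi.add_apply, h2]
  rw [Finset.sum_eq_single j]
  · simp only [Pi.add_apply, Pi.smul_apply]
    simp only [ee, Pi.single_eq_same, nsmul_eq_mul, zsmul_eq_mul, mul_one]
  · intro i _ hi
    simp [ee, hi.symm]
  · simp

theorem n1_zsmul_ee [NeZero N] (p : ℤ) (i : Fin d) : n1 (p • (ee i : V d N)) ≤ |(p : ℝ)| := by
  unfold n1
  rw [Finset.sum_eq_single i]
  · have h1 : (p • (ee i : V d N)) i = (p : ZMod N) := by simp [ee]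
    rw [h1]
    have h2 := ZMod.natAbs_min_of_le_div_two N ((p : ZMod N).valMinAbs) p (ZMod.coe_valMinAbs _)
      (ZMod.natAbs_valMinAbs_le _)
    have h3 : |(p : ℝ)| = ((p.natAbs : ℕ) : ℝ) := by rw [Nat.cast_natAbs, Int.cast_abs]
    rw [h3]
    exact_mod_cast h2
  · intro j _ hj
    have h1 : (p • (ee i : V d N)) j = 0 := by simp [ee, hj]
    rw [h1]; simp
  · simp

end

/-- square root of the `he` bound in `v` -/
theorem sqrt_vs {x C T I : ℝ} {y : ℝ} (hy : 0 ≤ y)
    (h : x ≤ C * y ^ 2 * T * I) : √x ≤ y * √(C * (T * I)) := by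
  rw [show y * √(C * (T * I)) = √(y ^ 2) * √(C * (T * I)) by rw [Real.sqrt_sq hy],
    ← Real.sqrt_mul (sq_nonneg y)]
  exact Real.sqrt_le_sqrt (by linarith [show y ^ 2 * (C * (T * I)) = C * y ^ 2 * T * I by ring])

theorem four_sq {S x y z w A B D X : ℝ} (hS : 0 ≤ S) (h : S ≤ x + y + z + w) (hx : x ^ 2 ≤ A) (hy : y ^ 2 ≤ B)
    (hz : z ^ 2 ≤ D) (hw : w ^ 2 ≤ X) : S ^ 2 ≤ 4 * (A + B + D + X) := by
  have h1 : S ^ 2 ≤ (x + y + z + w) ^ 2 := pow_le_pow_left₀ hS h 2
  nlinarith [sq_nonneg (x - y), sq_nonneg (x - z), sq_nonneg (x - w), sq_nonneg (y - z), sq_nonneg (y - w),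
    sq_nonneg (z - w)]

theorem If_nonneg {d N J : ℕ} [NeZero N] {c0 C0 : ℝ} {Θ : Type} [Fintype Θ] (S : JSys d N J c0 C0 Θ)
    (s : ℝ) (u : GG d N → ℝ) (hu : ∀ z, 0 < u z) : 0 ≤ S.If s u := by
  unfold JSys.If JSys.wt
  refine sum_nonneg (fun j _ => sum_nonneg (fun θ _ => ?_))
  refine mul_nonneg (div_nonneg (S.m_nn θ) (tim_pos s j).le) (sum_nonneg (fun z _ => ?_))
  rcases le_total (u z) (u (z + S.jv j θ)) with h | h
  · exact mul_nonneg (sub_nonneg.2 h) (sub_nonneg.2 (Real.log_le_log (hu _) h))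
  · exact mul_nonneg_of_nonpos_of_nonpos (sub_nonpos.2 h) (sub_nonpos.2 (Real.log_le_log (hu _) h))

/-- I.6 for a single time: `u = u_{k+1}` of `μ`, `u' = u_{k+1}` of `μ'`, window length `τ` even -/
theorem x_var (s c0 C0 C1 : ℝ) (d : ℕ) (hd : 1 ≤ d) (hs : 0 < s) (hs1 : s < 1) (hc0 : 0 < c0) :
    ∃ C : ℝ, 0 < C ∧
    ∀ (E : Env d s c0 C0 C1) (μ μ' : E.G → ℝ), IsP μ → IsP μ' → ∀ k, k + 1 ≤ E.K →
    ∀ τ : ℕ, Even τ → √E.M * tim s k / (2 * E.ε) ≤ τ → (τ : ℝ) ≤ √E.M * tim s k / E.ε →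
      E.Xk μ (k + 1) ≤ C * E.M * tim s k * (E.Ik μ k + E.Ik μ' k)
        + C * (∑ z, (√(lev E.q μ (k + 1) z) - √(lev E.q μ' (k + 1) (Am τ z))) ^ 2)
        + C / E.M * E.Xk μ k := by
  obtain ⟨C4, hC4, H4⟩ := x_diff_he s c0 C0 C1 d hs
  obtain ⟨CD, hCD, HD⟩ := he_vs_le s c0 C0 C1 d hd hs hs1 hc0
  obtain ⟨Cm, hCm, Hm⟩ := ker_moment d C1 2
  refine ⟨4 * (d : ℝ) ^ 2 * (1024 * CD * Cm + 4 + C4 ^ 2), by positivity, ?_⟩
  intro E μ μ' hμ hμ' k hk τ hτ hτ1 hτ2
  set u := lev E.q μ (k + 1) with hu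
  set u' := lev E.q μ' (k + 1) with hu'
  have hTpos : 0 < tim s k := tim_pos s k
  have hM := E.hM
  have hM0 : 0 < E.M := by linarith
  have hε := E.hε
  have hsM : 1 ≤ √E.M := Real.one_le_sqrt.2 hM
  have hsM0 : 0 < √E.M := by linarith
  have hsq : √E.M * √E.M = E.M := Real.mul_self_sqrt hM0.le
  have hupos : ∀ z, 0 < u z := E.u_pos hμ (by omega)
  have hupos' : ∀ z, 0 < u' z := E.u_pos hμ' (by omega)
  obtain ⟨t, ht⟩ := hτ
  have hτpos : (0 : ℝ) < τ := lt_of_lt_of_le (by positivity) hτ1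
  have ht2 : τ = 2 * t := by omega
  have htR : (τ : ℝ) = 2 * t := by exact_mod_cast ht2
  have htpos : (0 : ℝ) < t := by linarith
  have htne : t ≠ 0 := by
    rintro rfl
    simp at htpos
  set D := ∑ z, (√(u z) - √(u' (Am τ z))) ^ 2 with hD
  have hD0 : 0 ≤ D := sum_nonneg (fun _ _ => sq_nonneg _)
  set X := E.Xk μ k with hX
  have hX0 : 0 ≤ X := sum_nonneg (fun w _ => mul_nonneg (E.q_pos (by omega) w).le (he_nonneg _ _))
  set I := E.Ik μ k with hI
  set I' := E.Ik μ' k with hI'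
  have hI0 : 0 ≤ I := If_nonneg E.S s u hupos
  have hI0' : 0 ≤ I' := If_nonneg E.S s u' hupos'
  have h2k : (0 : ℝ) < 2 ^ k := by positivity
  have h2k1 : (1 : ℝ) ≤ 2 ^ k := one_le_pow₀ (by norm_num)
  -- radii
  have hRk : E.R k = E.M / E.ε * 2 ^ k * tim s k := rfl
  have hRpos : 0 < E.R k := E.R_pos k
  have hRpos' : 0 < E.R (k + 1) := E.R_pos (k + 1)
  have hR8 : E.R (k + 1) ≤ 8 * E.R k := by
    have h1 : E.R (k + 1) = E.M / E.ε * 2 ^ (k + 1) * tim s (k + 1) := rfl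
    have h2 : tim s (k + 1) ≤ 4 * tim s k := by
      rw [tim_add, mul_comm]
      refine mul_le_mul_of_nonneg_right ?_ hTpos.le
      unfold tim
      calc (2 : ℝ) ^ (2 * s * ((1 : ℕ) : ℝ)) ≤ (2 : ℝ) ^ (2 : ℝ) :=
            Real.rpow_le_rpow_of_exponent_le one_le_two (by push_cast; linarith)
        _ = 4 := by norm_num
    rw [h1, hRk]
    have h3 : 0 ≤ E.M / E.ε * 2 ^ (k + 1) := by positivity
    calc E.M / E.ε * 2 ^ (k + 1) * tim s (k + 1) ≤ E.M / E.ε * 2 ^ (k + 1) * (4 * tim s k) :=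
          mul_le_mul_of_nonneg_left h2 h3
      _ = 8 * (E.M / E.ε * 2 ^ k * tim s k) := by rw [pow_succ]; ring
  have htR1 : (t : ℝ) / E.R k ≤ 1 / √E.M := by
    rw [div_le_div_iff₀ hRpos hsM0, one_mul]
    have h1 : (t : ℝ) ≤ √E.M * tim s k / E.ε := by linarith
    calc (t : ℝ) * √E.M ≤ (√E.M * tim s k / E.ε) * √E.M := mul_le_mul_of_nonneg_right h1 hsM0.le
      _ = E.M / E.ε * 1 * tim s k := by
          rw [show √E.M * tim s k / E.ε * √E.M = (√E.M * √E.M) / E.ε * 1 * tim s k by ring, hsq]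
      _ ≤ E.M / E.ε * 2 ^ k * tim s k := by
          refine mul_le_mul_of_nonneg_right ?_ hTpos.le
          exact mul_le_mul_of_nonneg_left h2k1 (by positivity)
      _ = E.R k := hRk.symm
  have htR2 : 1 / ((t : ℝ) * 2 ^ k) ≤ 4 * √E.M / E.R k := by
    rw [div_le_div_iff₀ (by positivity) hRpos, one_mul, hRk]
    have h1 : √E.M * tim s k / (4 * E.ε) ≤ t := by
      have : √E.M * tim s k / (4 * E.ε) = (√E.M * tim s k / (2 * E.ε)) / 2 := by
        field_simp; ring
      rw [this]; linarith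
    calc E.M / E.ε * 2 ^ k * tim s k = 4 * √E.M * (√E.M * tim s k / (4 * E.ε) * 2 ^ k) := by
          rw [show 4 * √E.M * (√E.M * tim s k / (4 * E.ε) * 2 ^ k) =
            (√E.M * √E.M) / E.ε * 2 ^ k * tim s k by field_simp, hsq]
      _ ≤ 4 * √E.M * ((t : ℝ) * 2 ^ k) := by
          refine mul_le_mul_of_nonneg_left ?_ (by positivity)
          exact mul_le_mul_of_nonneg_right h1 h2k.le
  -- the pointwise estimate
  have hpt : ∀ w : E.G, he u (xs (w.1 + w.1)) ≤
      (4 * (d : ℝ) ^ 2 * (1024 * E.M * CD * tim s k * (I + I'))) * (1 + E.nm (k + 1) w) ^ 2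
        + 4 * (d : ℝ) ^ 2 * (4 * D + C4 ^ 2 / E.M * X) := by
    intro w
    have hnm0 : 0 ≤ E.nm (k + 1) w := by
      unfold Env.nm nrm n1
      positivity
    set y := 32 * √E.M * (1 + E.nm (k + 1) w) with hy
    have hy0 : 0 ≤ y := by positivity
    have hS : √(he u (xs (w.1 + w.1))) ≤ d * (y * √(CD * (tim s k * I))) +
        d * (y * √(CD * (tim s k * I'))) + d * (2 * √D) + d * (C4 / √E.M * √X) := by
      have hdec : w.1 + w.1 = ∑ i, ((2 * t) • (((w.1 i).valMinAbs / (t : ℤ)) • (ee i : V d E.N)) +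
          ((w.1 i).valMinAbs % (t : ℤ)).toNat • ((ee i : V d E.N) + ee i)) := by
        rcases decomp w.1 t with h | h
        · exact h
        · exact absurd h htne
      rw [hdec, xs_sum]
      refine (he_sum_le u univ _).trans ?_
      have hterm : ∀ i ∈ (univ : Finset (Fin d)),
          √(he u (xs ((2 * t) • (((w.1 i).valMinAbs / (t : ℤ)) • (ee i : V d E.N)) +
          ((w.1 i).valMinAbs % (t : ℤ)).toNat • ((ee i : V d E.N) + ee i)))) ≤
          y * √(CD * (tim s k * I)) + y * √(CD * (tim s k * I')) + 2 * √D + C4 / √E.M * √X := by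
        intro i _
        rw [xs_add]
        refine (A2.he_add_le u _ _).trans ?_
        set p := (w.1 i).valMinAbs / (t : ℤ) with hp
        set r := (w.1 i).valMinAbs % (t : ℤ) with hr
        have ht' : (0 : ℤ) < t := by exact_mod_cast Nat.pos_of_ne_zero htne
        have hr0 : 0 ≤ r := Int.emod_nonneg _ ht'.ne'
        have hr1 : r < t := Int.emod_lt_of_pos _ ht'
        have hpr : r + t * p = (w.1 i).valMinAbs := Int.emod_add_mul_ediv _ _
        -- bound for p
        have hp1 : (t : ℝ) * |(p : ℝ)| ≤ |((w.1 i).valMinAbs : ℝ)| + t := by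
          have h1 : (r : ℝ) + t * p = ((w.1 i).valMinAbs : ℝ) := by exact_mod_cast hpr
          have h2 : (0 : ℝ) ≤ r := by exact_mod_cast hr0
          have h3 : (r : ℝ) ≤ t := by exact_mod_cast hr1.le
          calc (t : ℝ) * |(p : ℝ)| = |(t : ℝ) * p| := by rw [abs_mul, abs_of_pos htpos]
            _ = |((w.1 i).valMinAbs : ℝ) - r| := by rw [← h1]; ring_nf
            _ ≤ |((w.1 i).valMinAbs : ℝ)| + |(r : ℝ)| := abs_sub _ _
            _ ≤ |((w.1 i).valMinAbs : ℝ)| + t := by rw [abs_of_nonneg h2]; linarith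
        have ha : |((w.1 i).valMinAbs : ℝ)| ≤ 8 * E.R k * E.nm (k + 1) w := by
          have h1 : |((w.1 i).valMinAbs : ℝ)| ≤ n1 w.1 := by
            unfold n1
            have h2 : |((w.1 i).valMinAbs : ℝ)| = ((w.1 i).valMinAbs.natAbs : ℝ) := by
              rw [Nat.cast_natAbs, Int.cast_abs]
            rw [h2]
            exact single_le_sum (f := fun i => ((w.1 i).valMinAbs.natAbs : ℝ))
              (fun i _ => Nat.cast_nonneg _) (mem_univ i)
          have h3 : n1 w.1 / E.R (k + 1) ≤ E.nm (k + 1) w := by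
            unfold Env.nm nrm
            have : 0 ≤ n1 w.2 / 2 ^ (k + 1) := by unfold n1; positivity
            linarith
          rw [div_le_iff₀ hRpos'] at h3
          calc |((w.1 i).valMinAbs : ℝ)| ≤ E.nm (k + 1) w * E.R (k + 1) := h1.trans h3
            _ ≤ E.nm (k + 1) w * (8 * E.R k) := mul_le_mul_of_nonneg_left hR8 hnm0
            _ = _ := by ring
        have hpy : 1 + n1 (p • (ee i : V d E.N)) / 2 ^ k ≤ y := by
          have h1 := n1_zsmul_ee (N := E.N) p i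
          have h2 : |(p : ℝ)| / 2 ^ k ≤ 1 + 32 * √E.M * E.nm (k + 1) w := by
            have h3 : |(p : ℝ)| / 2 ^ k = (t * |(p : ℝ)|) * (1 / (t * 2 ^ k)) := by field_simp
            rw [h3]
            calc (t * |(p : ℝ)|) * (1 / (t * 2 ^ k)) ≤
                (|((w.1 i).valMinAbs : ℝ)| + t) * (1 / (t * 2 ^ k)) :=
                  mul_le_mul_of_nonneg_right hp1 (by positivity)
              _ = |((w.1 i).valMinAbs : ℝ)| * (1 / (t * 2 ^ k)) + 1 / 2 ^ k := by field_simp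
              _ ≤ (8 * E.R k * E.nm (k + 1) w) * (4 * √E.M / E.R k) + 1 := by
                  refine add_le_add (mul_le_mul ha htR2 (by positivity) (by positivity)) ?_
                  rw [div_le_one h2k]; exact h2k1
              _ = 1 + 32 * √E.M * E.nm (k + 1) w := by field_simp; ring
          have h4 : n1 (p • (ee i : V d E.N)) / 2 ^ k ≤ |(p : ℝ)| / 2 ^ k :=
            div_le_div_of_nonneg_right h1 h2k.le
          rw [hy]
          nlinarith
        have hn0 : 0 ≤ 1 + n1 (p • (ee i : V d E.N)) / 2 ^ k := by unfold n1; positivity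
        have hv : √(he u (vs (p • (ee i : V d E.N)))) ≤ y * √(CD * (tim s k * I)) := by
          have h1 := HD E u hupos k (by omega) (p • (ee i : V d E.N))
          exact (sqrt_vs hn0 h1).trans (mul_le_mul_of_nonneg_right hpy (Real.sqrt_nonneg _))
        have hv' : √(he u' (vs (p • (ee i : V d E.N)))) ≤ y * √(CD * (tim s k * I')) := by
          have h1 := HD E u' hupos' k (by omega) (p • (ee i : V d E.N))
          exact (sqrt_vs hn0 h1).trans (mul_le_mul_of_nonneg_right hpy (Real.sqrt_nonneg _))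
        have hG := he_xs_tau u u' τ (p • (ee i : V d E.N))
        rw [ht2] at hG
        have hG2 : √(∑ z, (√(u z) - √(u' (Am (2 * t) z))) ^ 2) = √D := by rw [hD, ht2]
        rw [hG2] at hG
        -- the small part
        have hs1' : √(he u (xs (r.toNat • ((ee i : V d E.N) + ee i)))) ≤ C4 / √E.M * √X := by
          rw [xs_nsmul]
          refine (A2.he_nsmul_le u _ _).trans ?_
          have h1 := H4 E μ hμ k (by omega) i
          have h2 : √(he u (xs (ee i + ee i))) ≤ C4 / E.R k * √X := by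
            rw [show C4 / E.R k * √X = √((C4 / E.R k) ^ 2) * √X by
              rw [Real.sqrt_sq (by positivity)], ← Real.sqrt_mul (sq_nonneg _)]
            exact Real.sqrt_le_sqrt h1
          have h3 : ((r.toNat : ℕ) : ℝ) ≤ t := by
            have : (r.toNat : ℤ) = r := Int.toNat_of_nonneg hr0
            have h4 : (r.toNat : ℤ) ≤ t := by omega
            exact_mod_cast h4
          calc ((r.toNat : ℕ) : ℝ) * √(he u (xs (ee i + ee i))) ≤ t * (C4 / E.R k * √X) :=
                mul_le_mul h3 h2 (Real.sqrt_nonneg _) htpos.le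
            _ = C4 * (t / E.R k) * √X := by ring
            _ ≤ C4 * (1 / √E.M) * √X := by
                refine mul_le_mul_of_nonneg_right ?_ (Real.sqrt_nonneg _)
                exact mul_le_mul_of_nonneg_left htR1 hC4.le
            _ = C4 / √E.M * √X := by ring
        linarith
      refine (sum_le_sum hterm).trans ?_
      rw [sum_const, card_univ, Fintype.card_fin, nsmul_eq_mul]
      apply le_of_eq; ring
    have h4 := four_sq (Real.sqrt_nonneg _) hS (A := (d : ℝ) ^ 2 * (y ^ 2 * (CD * (tim s k * I))))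
      (B := (d : ℝ) ^ 2 * (y ^ 2 * (CD * (tim s k * I')))) (D := (d : ℝ) ^ 2 * (4 * D))
      (X := (d : ℝ) ^ 2 * (C4 ^ 2 / E.M * X))
      (by rw [mul_pow, mul_pow, Real.sq_sqrt (by positivity)])
      (by rw [mul_pow, mul_pow, Real.sq_sqrt (by positivity)])
      (by rw [mul_pow, mul_pow, Real.sq_sqrt hD0]; norm_num)
      (by rw [mul_pow, mul_pow, Real.sq_sqrt hX0, div_pow, Real.sq_sqrt hM0.le])
    rw [Real.sq_sqrt (he_nonneg _ _)] at h4
    refine h4.trans (le_of_eq ?_)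
    have hy2 : y ^ 2 = 1024 * E.M * (1 + E.nm (k + 1) w) ^ 2 := by
      rw [hy, mul_pow, mul_pow, Real.sq_sqrt hM0.le]; norm_num
    rw [hy2]
    ring
  -- summation
  have hmom : ∑ w, E.q (k + 1) w * (1 + E.nm (k + 1) w) ^ 2 ≤ Cm :=
    Hm E.N (2 ^ (k + 1)) (Rad s E.M E.ε (k + 1)) (E.q (k + 1)) (by positivity) hRpos' (E.ker (k + 1) hk)
  have hone : ∑ w, E.q (k + 1) w = 1 := E.q_mass hk
  have hA0 : 0 ≤ 4 * (d : ℝ) ^ 2 * (1024 * E.M * CD * tim s k * (I + I')) := by positivity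
  clear_value D X I I'
  calc E.Xk μ (k + 1) = ∑ w, E.q (k + 1) w * he u (xs (w.1 + w.1)) := rfl
    _ ≤ ∑ w, E.q (k + 1) w * ((4 * (d : ℝ) ^ 2 * (1024 * E.M * CD * tim s k * (I + I'))) *
        (1 + E.nm (k + 1) w) ^ 2 + 4 * (d : ℝ) ^ 2 * (4 * D + C4 ^ 2 / E.M * X)) :=
        sum_le_sum (fun w _ => mul_le_mul_of_nonneg_left (hpt w) (E.q_pos hk w).le)
    _ = (4 * (d : ℝ) ^ 2 * (1024 * E.M * CD * tim s k * (I + I'))) *
        (∑ w, E.q (k + 1) w * (1 + E.nm (k + 1) w) ^ 2) +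
        4 * (d : ℝ) ^ 2 * (4 * D + C4 ^ 2 / E.M * X) * ∑ w, E.q (k + 1) w := by
        rw [mul_sum, mul_sum, ← sum_add_distrib]
        exact sum_congr rfl (fun w _ => by ring)
    _ ≤ (4 * (d : ℝ) ^ 2 * (1024 * E.M * CD * tim s k * (I + I'))) * Cm +
        4 * (d : ℝ) ^ 2 * (4 * D + C4 ^ 2 / E.M * X) * 1 := by
        rw [hone]
        exact add_le_add (mul_le_mul_of_nonneg_left hmom hA0) le_rfl
    _ ≤ _ := by
        have e1 : 0 ≤ 4 * (d : ℝ) ^ 2 * (4 + C4 ^ 2) * E.M * tim s k * (I + I') := by positivity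
        have e2 : 0 ≤ 4 * (d : ℝ) ^ 2 * (1024 * CD * Cm + C4 ^ 2) * D := by positivity
        have e3 : 0 ≤ 4 * (d : ℝ) ^ 2 * (1024 * CD * Cm + 4) / E.M * X := by positivity
        have e4 : 4 * (d : ℝ) ^ 2 * (1024 * CD * Cm + 4 + C4 ^ 2) * E.M * tim s k * (I + I') +
            4 * (d : ℝ) ^ 2 * (1024 * CD * Cm + 4 + C4 ^ 2) * D +
            4 * (d : ℝ) ^ 2 * (1024 * CD * Cm + 4 + C4 ^ 2) / E.M * X =
            ((4 * (d : ℝ) ^ 2 * (1024 * E.M * CD * tim s k * (I + I'))) * Cm +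
            4 * (d : ℝ) ^ 2 * (4 * D + C4 ^ 2 / E.M * X) * 1) +
            (4 * (d : ℝ) ^ 2 * (4 + C4 ^ 2) * E.M * tim s k * (I + I') +
            4 * (d : ℝ) ^ 2 * (1024 * CD * Cm + C4 ^ 2) * D +
            4 * (d : ℝ) ^ 2 * (1024 * CD * Cm + 4) / E.M * X) := by
          field_simp
          ring
        rw [e4]
        linarith

end KD.I.G2
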